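import Pool.Agent.Helper78.JT.Goals
import Pool.Agent.Helper61.DT.DEPCNT

/-!
# Packet JT-GTJ: most seeds of the chain are good
-/

set_option autoImplicit false

namespace Pool.Agent.Helper10.JT

open Pool.Agent.Helper78.DT Pool.Agent.Helper78.JT

open scoped Classical

theorem gtj (hC : ChnStmt) (hS : StrStmt) (hR : RnjStmt) :
    Pool.Agent.Helper78.JT.GtjStmt := by
  intro P q r t s D l R d k M κ δ ε H hP hq hδ hε hD hM0 hM hj
  obtain ⟨hfin, hcard⟩ := Pool.Agent.Helper61.DT.cnt P t s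
  let F : Finset (DL (Fin P)) := hfin.toFinset
  have hF : ∀ g, g ∈ F ↔ Wid t g ∧ g.length ≤ s := fun g => by
    rw [Set.Finite.mem_toFinset]; rfl
  have hFc : F.card ≤ (2 * (2 * P + 1) ^ t + 1) ^ s := by
    rw [← Set.ncard_eq_toFinset_card _ hfin]; exact hcard
  let I : Finset ((Fin r → DL (Fin P)) × Bool) :=
    (Fintype.piFinset fun _ : Fin r => F) ×ˢ Finset.univ
  have hI : I.card = F.card ^ r * 2 := by
    rw [Finset.card_product, Finset.card_univ, Fintype.card_bool, Fintype.card_piFinset,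
      Finset.prod_const, Finset.card_univ, Fintype.card_fin]
  let ψ : (Fin r → DL (Fin P)) × Bool → (Fin P → Bool) → Prop := fun i =>
    if i.2 = true then hiJ H t κ i.1 else loJ H t κ i.1
  let φ : (Fin r → DL (Fin P)) × Bool → ℕ → Prop := fun i y => ψ i fun u => sb P D y u
  have hmain := hC R d k M q l δ ε hq hδ hε hM0 hM hj ((Fin r → DL (Fin P)) × Bool) I φ
  have hRl : 0 < R l := (hj l le_rfl).1.pos
  have hstr : ∀ i ∈ I, |pr (fun y : Fin (R l) => φ i y) - pr (ψ i)| ≤
      (P : ℝ) ^ D / R l + D / P := by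
    intro i hi
    have hg : ∀ j, i.1 j ∈ F := Fintype.mem_piFinset.mp (Finset.mem_product.mp hi).1
    obtain ⟨-, -, d1, d2, d3⟩ := hR (Fin P) (Fin P) id r t s κ H i.1
    refine hS P D (R l) hP hRl (ψ i) (varsJ i.1) ?_ ?_
    · change Dep (varsJ i.1) (if i.2 = true then hiJ H t κ i.1 else loJ H t κ i.1)
      split_ifs
      · exact d2
      · exact d1
    · exact (d3 fun j => (hF _).1 (hg j)).trans hD
  have h1 : pr (fun θ : Fin (Zl R d (l + 1)) =>
      ¬ GoodJ P q r t s κ ((l + 1) * δ + ((P : ℝ) ^ D / R l + D / P)) H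
        fun a u => sb P D (ch R d θ a (l + 1)) u) ≤
      pr (fun θ : Fin (Zl R d (l + 1)) => ∃ i ∈ I, (l + 1) * δ <
      |pr (fun a : Fin q => φ i (ch R d θ a (l + 1))) - pr (fun y : Fin (R l) => φ i y)|) := by
    apply pr_mono
    intro θ hθ
    unfold GoodJ at hθ
    push Not at hθ
    obtain ⟨g, hg1, hg3⟩ := hθ
    have key : ∀ b : Bool, (l + 1) * δ + ((P : ℝ) ^ D / R l + D / P) <
        |pr (fun a : Fin q => φ (g, b) (ch R d θ a (l + 1))) - pr (ψ (g, b))| →
        ∃ i ∈ I, (l + 1) * δ <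
          |pr (fun a : Fin q => φ i (ch R d θ a (l + 1))) - pr (fun y : Fin (R l) => φ i y)| := by
      intro b hb
      have hm : (g, b) ∈ I :=
        Finset.mem_product.mpr ⟨Fintype.mem_piFinset.mpr fun j => (hF _).2 (hg1 j),
          Finset.mem_univ _⟩
      refine ⟨(g, b), hm, ?_⟩
      have e1 := hstr (g, b) hm
      have e2 := abs_sub_le (pr (fun a : Fin q => φ (g, b) (ch R d θ a (l + 1))))
        (pr (fun y : Fin (R l) => φ (g, b) y)) (pr (ψ (g, b)))
      linarith
    by_cases h : |pr (fun a : Fin q => loJ H t κ g fun u => sb P D (ch R d θ a (l + 1)) u) -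
        pr (loJ H t κ g)| ≤ (l + 1) * δ + ((P : ℝ) ^ D / R l + D / P)
    · exact key true (hg3 h)
    · exact key false (not_le.mp h)
  refine h1.trans (hmain.trans ?_)
  refine mul_le_mul_of_nonneg_left (mul_le_mul_of_nonneg_right ?_ hε) (by positivity)
  rw [hI]
  push_cast
  have h3 : (F.card : ℝ) ^ r ≤ (2 * (2 * (P : ℝ) + 1) ^ t + 1) ^ (s * r) := by
    calc (F.card : ℝ) ^ r ≤ ((((2 * (2 * P + 1) ^ t + 1) ^ s : ℕ) : ℝ)) ^ r :=
          pow_le_pow_left₀ (Nat.cast_nonneg _) (by exact_mod_cast hFc) r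
      _ = _ := by push_cast; rw [pow_mul]
  linarith

end Pool.Agent.Helper10.JT
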